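import Mathlib
import Pool.Agent.Lib.helper10.ER

namespace Pool.Agent.H.MP_88803c_co
open Cardinal
universe u

theorem anti {M W P : Type u} [LinearOrder M] [PartialOrder P] (K : W → Set P)
    (hK : ∀ δ, IsLowerSet (K δ)) (z : M → P)
    (h : ∀ m m', m < m' → (∃ δ, z m' ∈ K δ ∧ z m ∉ K δ) ∧ (∃ δ, z m ∈ K δ ∧ z m' ∉ K δ)) :
    ∃ A : Set P, IsAntichain (· ≤ ·) A ∧ #A = #M := by
  have h2 : ∀ m m', m ≠ m' → ¬ z m ≤ z m' := by
    intro m m' hne hle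
    rcases lt_or_gt_of_ne hne with hlt | hlt
    · obtain ⟨δ, h1, h2⟩ := (h m m' hlt).1
      exact h2 (hK δ hle h1)
    · obtain ⟨δ, h1, h2⟩ := (h m' m hlt).2
      exact h2 (hK δ hle h1)
  refine ⟨Set.range z, ?_, Cardinal.mk_range_eq z ?_⟩
  · rintro _ ⟨m, rfl⟩ _ ⟨m', rfl⟩ hne
    exact h2 m m' (fun e => hne (by rw [e]))
  · intro m m' e
    by_contra hne
    exact h2 m m' hne e.le

theorem cases5 {M W P : Type u} [LinearOrder M] [LinearOrder W] [PartialOrder P] (K : W → Set P)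
    (hK : ∀ δ, IsLowerSet (K δ)) (y : W → W → W → P) (u1 u2 u3 u4 : Prop)
    (h0 : ∀ β α γ, β < α → α < γ → y β α γ ∈ K α ∧ y β α γ ∉ K β ∧ y β α γ ∉ K γ)
    (h1 : ∀ δ β α γ, δ < β → β < α → α < γ → (y β α γ ∈ K δ ↔ u1))
    (h2 : ∀ β δ α γ, β < δ → δ < α → α < γ → (y β α γ ∈ K δ ↔ u2))
    (h3 : ∀ β α δ γ, β < α → α < δ → δ < γ → (y β α γ ∈ K δ ↔ u3))
    (h4 : ∀ β α γ δ, β < α → α < γ → γ < δ → (y β α γ ∈ K δ ↔ u4))
    (l0 l1 g0 g1 : W) (p q r : M → W) (hl : l0 < l1) (hg : g0 < g1)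
    (hlp : ∀ m, l1 < p m) (hpq : ∀ m, p m < q m) (hqr : ∀ m, q m < r m) (hrg : ∀ m, r m < g0)
    (hrp : ∀ m m', m < m' → r m < p m') :
    ∃ A : Set P, IsAntichain (· ≤ ·) A ∧ #A = #M := by
  have hqp : ∀ m m', m < m' → q m < p m' := fun m m' h => (hqr m).trans (hrp m m' h)
  have hpp : ∀ m m', m < m' → p m < p m' := fun m m' h => (hpq m).trans (hqp m m' h)
  have hqg : ∀ m, q m < g0 := fun m => (hqr m).trans (hrg m)
  have hpg : ∀ m, p m < g0 := fun m => (hpq m).trans (hqg m)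
  by_cases c14 : u1 ↔ u4
  · apply anti K hK (fun m => y (p m) (q m) (r m))
    intro m m' h
    have a := h0 _ _ _ (hpq m) (hqr m)
    have a' := h0 _ _ _ (hpq m') (hqr m')
    by_cases c : u1
    · exact ⟨⟨r m, (h1 _ _ _ _ (hrp m m' h) (hpq m') (hqr m')).2 c, a.2.2⟩,
        ⟨p m', (h4 _ _ _ _ (hpq m) (hqr m) (hrp m m' h)).2 (c14.1 c), a'.2.1⟩⟩
    · exact ⟨⟨q m', a'.1, fun e => c (c14.2
          ((h4 _ _ _ _ (hpq m) (hqr m) ((hrp m m' h).trans (hpq m'))).1 e))⟩,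
        ⟨q m, a.1, fun e => c ((h1 _ _ _ _ (hqp m m' h) (hpq m') (hqr m')).1 e)⟩⟩
  by_cases c24 : u2 ↔ u4
  · apply anti K hK (fun m => y l1 (p m) (q m))
    intro m m' h
    have a := h0 _ _ _ (hlp m) (hpq m)
    have a' := h0 _ _ _ (hlp m') (hpq m')
    by_cases c : u2
    · exact ⟨⟨q m, (h2 _ _ _ _ ((hlp m).trans (hpq m)) (hqp m m' h) (hpq m')).2 c, a.2.2⟩,
        ⟨q m', (h4 _ _ _ _ (hlp m) (hpq m) ((hqp m m' h).trans (hpq m'))).2 (c24.1 c), a'.2.2⟩⟩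
    · exact ⟨⟨p m', a'.1, fun e => c (c24.2
          ((h4 _ _ _ _ (hlp m) (hpq m) (hqp m m' h)).1 e))⟩,
        ⟨p m, a.1, fun e => c ((h2 _ _ _ _ (hlp m) (hpp m m' h) (hpq m')).1 e)⟩⟩
  by_cases c13 : u1 ↔ u3
  · apply anti K hK (fun m => y (p m) (q m) g0)
    intro m m' h
    have a := h0 _ _ _ (hpq m) (hqg m)
    have a' := h0 _ _ _ (hpq m') (hqg m')
    by_cases c : u1
    · exact ⟨⟨p m, (h1 _ _ _ _ (hpp m m' h) (hpq m') (hqg m')).2 c, a.2.1⟩,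
        ⟨p m', (h3 _ _ _ _ (hpq m) (hqp m m' h) (hpg m')).2 (c13.1 c), a'.2.1⟩⟩
    · exact ⟨⟨q m', a'.1, fun e => c (c13.2
          ((h3 _ _ _ _ (hpq m) ((hqp m m' h).trans (hpq m')) (hqg m')).1 e))⟩,
        ⟨q m, a.1, fun e => c ((h1 _ _ _ _ (hqp m m' h) (hpq m') (hqg m')).1 e)⟩⟩
  by_cases c : u1
  · have c2 : u2 := by tauto
    apply anti K hK (fun m => y (p m) g0 g1)
    intro m m' h
    have a := h0 _ _ _ (hpg m) hg
    have a' := h0 _ _ _ (hpg m') hg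
    exact ⟨⟨p m, (h1 _ _ _ _ (hpp m m' h) (hpg m') hg).2 c, a.2.1⟩,
      ⟨p m', (h2 _ _ _ _ (hpp m m' h) (hpg m') hg).2 c2, a'.2.1⟩⟩
  · have c3 : u3 := by tauto
    have c4 : u4 := by tauto
    apply anti K hK (fun m => y l0 l1 (p m))
    intro m m' h
    have a := h0 _ _ _ hl (hlp m)
    have a' := h0 _ _ _ hl (hlp m')
    exact ⟨⟨p m, (h3 _ _ _ _ hl (hlp m) (hpp m m' h)).2 c3, a.2.2⟩,
      ⟨p m', (h4 _ _ _ _ hl (hlp m) (hpp m m' h)).2 c4, a'.2.2⟩⟩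

def col {X P : Type u} (J : X → Set P) (x : X → X → X → P) :
    List X → ULift.{u} (Prop × Prop × Prop × Prop)
  | [d, c, b, a] => ⟨(x b c d ∈ J a, x a c d ∈ J b, x a b d ∈ J c, x a b c ∈ J d)⟩
  | _ => ⟨(True, True, True, True)⟩

theorem main (μ : Cardinal.{u}) : ∃ i : Cardinal.{u}, ∀ (P : Type u) [PartialOrder P],
    (∀ A : Set P, IsAntichain (· ≤ ·) A → #A ≠ μ) →
    ∀ B : Set (Set P), (∀ J ∈ B, IsLowerSet J ∧ DirectedOn (· ≤ ·) J) →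
      IsAntichain (· ⊆ ·) B → #B ≠ i := by
  classical
  rcases isEmpty_or_nonempty μ.ord.ToType with hM | ⟨⟨m0⟩⟩
  · refine ⟨0, fun P _ hP => ?_⟩
    exfalso
    have : μ = 0 := by
      have := Cardinal.mk_eq_zero μ.ord.ToType
      rwa [Cardinal.mk_ord_toType] at this
    exact hP ∅ (IsAntichain.empty) (by simp [this])
  obtain ⟨lam, hlam⟩ := Pool.Agent.Lib.helper10.ER.er 4
    (Lex (Fin 3 × Lex (μ.ord.ToType × Fin 3))) (ULift.{u} (Prop × Prop × Prop × Prop))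
  refine ⟨lam, fun P _ hP B hB hanti hcard => ?_⟩
  have e : lam.ord.ToType ≃ B := (Cardinal.eq.1 (by simp [hcard])).some
  let J : lam.ord.ToType → Set P := fun t => (e t : Set P)
  have hJ : ∀ s t, s ≠ t → ∃ p, p ∈ J s ∧ p ∉ J t := by
    intro s t hst
    have : ¬ J s ⊆ J t := hanti (e s).2 (e t).2 (fun h => hst (e.injective (Subtype.ext h)))
    exact Set.not_subset.1 this
  have hne : Nonempty P := by
    obtain ⟨a, ha, _⟩ := hlam lam.ord.ToType (by simp) (fun _ => ⟨(True, True, True, True)⟩)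
    have hlt : (toLex ((0 : Fin 3), toLex (m0, (0 : Fin 3))) :
        Lex (Fin 3 × Lex (μ.ord.ToType × Fin 3))) < toLex ((1 : Fin 3), toLex (m0, (0 : Fin 3))) := by
      simp [Prod.Lex.toLex_lt_toLex]
    obtain ⟨p, _⟩ := hJ _ _ (ha hlt).ne
    exact ⟨p⟩
  have hx : ∀ β α γ, ∃ p, β ≠ α → γ ≠ α → p ∈ J α ∧ p ∉ J β ∧ p ∉ J γ := by
    intro β α γ
    by_cases h : β ≠ α ∧ γ ≠ α
    · obtain ⟨p, hp, hp'⟩ := hJ α β h.1.symm
      obtain ⟨q, hq, hq'⟩ := hJ α γ h.2.symm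
      obtain ⟨r, hr, hpr, hqr⟩ := (hB _ (e α).2).2 p hp q hq
      exact ⟨r, fun _ _ => ⟨hr, fun h => hp' ((hB _ (e β).2).1 hpr h),
        fun h => hq' ((hB _ (e γ).2).1 hqr h)⟩⟩
    · exact ⟨hne.some, fun h1 h2 => absurd ⟨h1, h2⟩ h⟩
  choose x hx using hx
  obtain ⟨a, ha, ⟨u1, u2, u3, u4⟩, hc⟩ := hlam lam.ord.ToType (by simp) (col J x)
  have hc' : ∀ s t v w, s < t → t < v → v < w →
      (x (a t) (a v) (a w) ∈ J (a s) ↔ u1) ∧ (x (a s) (a v) (a w) ∈ J (a t) ↔ u2) ∧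
      (x (a s) (a t) (a w) ∈ J (a v) ↔ u3) ∧ (x (a s) (a t) (a v) ∈ J (a w) ↔ u4) := by
    intro s t v w h1 h2 h3
    have := hc [w, v, t, s] (by
      simp [h1, h2, h3, h1.trans h2, h2.trans h3, (h1.trans h2).trans h3]) rfl
    simpa [col] using this
  obtain ⟨A, hA, hA'⟩ := cases5 (M := μ.ord.ToType) (fun δ => J (a δ))
    (fun δ => (hB _ (e (a δ)).2).1) (fun β α γ => x (a β) (a α) (a γ)) u1 u2 u3 u4
    (fun β α γ h1 h2 => hx _ _ _ (ha h1).ne (ha h2).ne')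
    (fun δ β α γ h1 h2 h3 => (hc' _ _ _ _ h1 h2 h3).1)
    (fun β δ α γ h1 h2 h3 => (hc' _ _ _ _ h1 h2 h3).2.1)
    (fun β α δ γ h1 h2 h3 => (hc' _ _ _ _ h1 h2 h3).2.2.1)
    (fun β α γ δ h1 h2 h3 => (hc' _ _ _ _ h1 h2 h3).2.2.2)
    (toLex (0, toLex (m0, 0))) (toLex (0, toLex (m0, 1)))
    (toLex (2, toLex (m0, 0))) (toLex (2, toLex (m0, 1)))
    (fun m => toLex (1, toLex (m, 0))) (fun m => toLex (1, toLex (m, 1)))
    (fun m => toLex (1, toLex (m, 2)))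
    (by simp [Prod.Lex.toLex_lt_toLex]) (by simp [Prod.Lex.toLex_lt_toLex])
    (by simp [Prod.Lex.toLex_lt_toLex]) (by simp [Prod.Lex.toLex_lt_toLex])
    (by simp [Prod.Lex.toLex_lt_toLex]) (by simp [Prod.Lex.toLex_lt_toLex])
    (by intro m m' h; simp [Prod.Lex.toLex_lt_toLex, h])
  exact hP A hA (by simpa using hA')

end Pool.Agent.H.MP_88803c_co
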